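import Pool.Agent.Helper98.DISC.GoalsE

/-!
# Project DISC (MP_105b7b_pr), packet RATF
-/

open MeasureTheory Set Filter Topology

noncomputable section

namespace Pool.Agent.Helper9.DISC

open Pool.Agent.Helper98.DISC

/-- even indices -/
theorem sum_even (n : ℕ) (hn : 1 ≤ n) (g : ℕ → ℝ) (h : ∀ j, g (2 * j + 1) = 0) :
    ∑ s ∈ Finset.range n, g s = ∑ j ∈ Finset.range ((n - 1) / 2 + 1), g (2 * j) := by
  have h1 : ∑ s ∈ (Finset.range n).filter Even, g s = ∑ s ∈ Finset.range n, g s := by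
    apply Finset.sum_filter_of_ne
    intro s _ hs
    by_contra ho
    rw [Nat.not_even_iff_odd] at ho
    obtain ⟨j, rfl⟩ := ho
    exact hs (h j)
  rw [← h1]
  apply Finset.sum_nbij' (fun s => s / 2) (fun j => 2 * j)
  · intro s hs
    simp only [Finset.mem_filter, Finset.mem_range] at hs ⊢
    omega
  · intro j hj
    simp only [Finset.mem_filter, Finset.mem_range] at hj ⊢
    refine ⟨by omega, even_two_mul j⟩
  · intro s hs
    simp only [Finset.mem_filter, Finset.mem_range] at hs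
    obtain ⟨k, hk⟩ := hs.2
    omega
  · intro j _
    simp
  · intro s hs
    simp only [Finset.mem_filter, Finset.mem_range] at hs
    obtain ⟨k, hk⟩ := hs.2
    congr 1
    omega

theorem coeff_eq (n : ℕ) (hn : 1 ≤ n) (z : ℂ) :
    PowerSeries.coeff (n - 1) (PowerSeries.derivative ℂ (Sz z) * (Sz z)⁻¹) = yk n z := by
  obtain ⟨m, rfl⟩ : ∃ m, n = m + 1 := ⟨n - 1, by omega⟩
  unfold yk yz th
  rw [mul_assoc, PowerSeries.coeff_succ_X_mul]
  simp

theorem ratf : S_RATF := by
  intro hY hI hF n _ hn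
  have hn1 : 1 ≤ n := by omega
  obtain ⟨a, ha⟩ := hY n hn1
  have hq := hF n hn
  -- the circle integral
  have hint : (∮ z in C(0, n), PowerSeries.coeff (n - 1) (PowerSeries.derivative ℂ (Sz z) *
      (Sz z)⁻¹) * Complex.exp (2 * Real.pi * Complex.I * z)) =
      ∑ m ∈ Finset.Icc (-((n - 1 : ℕ) : ℤ)) ((n - 1 : ℕ) : ℤ), ∑ l ∈ Finset.range n,
        (a m l : ℂ) * ((2 * Real.pi * Complex.I) ^ (l + 1) / (l.factorial : ℂ)) := by
    have h1 : (∮ z in C(0, n), PowerSeries.coeff (n - 1) (PowerSeries.derivative ℂ (Sz z) *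
      (Sz z)⁻¹) * Complex.exp (2 * Real.pi * Complex.I * z)) =
      ∮ z in C(0, n), ∑ m ∈ Finset.Icc (-((n - 1 : ℕ) : ℤ)) ((n - 1 : ℕ) : ℤ),
        ∑ l ∈ Finset.range n, (a m l : ℂ) *
          (Complex.exp (2 * Real.pi * Complex.I * z) / (z - m) ^ (l + 1)) := by
      apply circleIntegral.integral_congr (by positivity)
      intro z hz
      simp only [mem_sphere_iff_norm, sub_zero] at hz
      have hz' : ((n - 1 : ℕ) : ℝ) < ‖z‖ := by
        rw [hz]
        exact_mod_cast Nat.sub_lt hn1 one_pos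
      simp only
      rw [coeff_eq n hn1, ha z hz', Finset.sum_mul]
      apply Finset.sum_congr rfl
      intro m _
      rw [Finset.sum_mul]
      apply Finset.sum_congr rfl
      intro l _
      ring
    have hci : ∀ m ∈ Finset.Icc (-((n - 1 : ℕ) : ℤ)) ((n - 1 : ℕ) : ℤ), ∀ l ∈ Finset.range n,
        CircleIntegrable (fun z : ℂ => (a m l : ℂ) *
          (Complex.exp (2 * Real.pi * Complex.I * z) / (z - m) ^ (l + 1))) 0 n := by
      intro m hm l _
      apply ContinuousOn.circleIntegrable (by positivity)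
      apply ContinuousOn.mul continuousOn_const
      apply ContinuousOn.div (by fun_prop) (by fun_prop)
      intro z hz
      apply pow_ne_zero
      intro h0
      rw [sub_eq_zero] at h0
      rw [mem_sphere_iff_norm, sub_zero, h0, Complex.norm_intCast] at hz
      rw [Finset.mem_Icc] at hm
      have h3 : |m| ≤ ((n - 1 : ℕ) : ℤ) := abs_le.2 hm
      have h4 : |(m : ℝ)| ≤ ((n - 1 : ℕ) : ℝ) := by exact_mod_cast h3
      have h5 : ((n - 1 : ℕ) : ℝ) < n := by exact_mod_cast Nat.sub_lt hn1 one_pos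
      linarith
    rw [h1, circleIntegral.integral_fun_sum]
    · apply Finset.sum_congr rfl
      intro m hm
      rw [circleIntegral.integral_fun_sum]
      · apply Finset.sum_congr rfl
        intro l hl
        rw [circleIntegral.integral_const_mul, hI n m l]
        rw [Finset.mem_Icc] at hm
        have h3 : |m| ≤ ((n - 1 : ℕ) : ℤ) := abs_le.2 hm
        omega
      · exact fun l hl => hci m hm l hl
    · intro m hm
      exact CircleIntegrable.fun_sum _ fun l hl => hci m hm l hl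
  rw [hint] at hq
  -- collect
  set A : ℕ → ℚ := fun l => ∑ m ∈ Finset.Icc (-((n - 1 : ℕ) : ℤ)) ((n - 1 : ℕ) : ℤ), a m l with hA
  rw [Finset.sum_comm] at hq
  have hq2 : (qn n : ℂ) = ∑ s ∈ Finset.range n,
      (((-2 * A (n - 1 - s) / ((n - 1 - s).factorial : ℚ) : ℚ) : ℝ) : ℂ) *
        ((-1) ^ n / (2 * Real.pi * Complex.I) ^ s) := by
    rw [hq, ← Finset.sum_range_reflect, Finset.mul_sum]
    apply Finset.sum_congr rfl
    intro s hs
    rw [Finset.mem_range] at hs
    rw [← Finset.sum_mul]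
    have e1 : ∑ m ∈ Finset.Icc (-((n - 1 : ℕ) : ℤ)) ((n - 1 : ℕ) : ℤ), (a m (n - 1 - s) : ℂ) =
        ((A (n - 1 - s) : ℚ) : ℂ) := by
      simp only [hA]
      push_cast
      rfl
    rw [e1]
    have e2 : n - 1 - s + 1 = n - s := by omega
    rw [e2]
    have hpi : (2 * (Real.pi : ℂ) * Complex.I) ≠ 0 := by
      simp [Real.pi_ne_zero]
    have e3 : (2 * (Real.pi : ℂ) * Complex.I) ^ (n - s) =
        (2 * Real.pi * Complex.I) ^ n / (2 * Real.pi * Complex.I) ^ s := by
      rw [eq_div_iff (pow_ne_zero _ hpi), ← pow_add]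
      congr 1
      omega
    have e4 : (Complex.I / (2 * Real.pi)) ^ n * (2 * (Real.pi : ℂ) * Complex.I) ^ n = (-1) ^ n := by
      rw [← mul_pow]
      congr 1
      have : (Real.pi : ℂ) ≠ 0 := by exact_mod_cast Real.pi_ne_zero
      field_simp
      exact Complex.I_sq
    rw [e3]
    push_cast
    rw [← e4]
    ring
  have hsq : ∀ j : ℕ, (2 * (Real.pi : ℂ) * Complex.I) ^ (2 * j) =
      (((-4 * Real.pi ^ 2) ^ j : ℝ) : ℂ) := by
    intro j
    rw [pow_mul]
    push_cast
    congr 1
    rw [mul_pow, Complex.I_sq]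
    ring
  have hq3 : qn n = ∑ s ∈ Finset.range n,
      ((-2 * A (n - 1 - s) / ((n - 1 - s).factorial : ℚ) : ℚ) : ℝ) *
        ((-1 : ℂ) ^ n / (2 * Real.pi * Complex.I) ^ s).re := by
    have h := congrArg Complex.re hq2
    rw [Complex.ofReal_re, Complex.re_sum] at h
    rw [h]
    apply Finset.sum_congr rfl
    intro s _
    rw [Complex.re_ofReal_mul]
  have hm1 : (-1 : ℂ) ^ n = (((-1) ^ n : ℝ) : ℂ) := by push_cast; rfl
  rw [sum_even n hn1] at hq3
  · refine ⟨∑ j ∈ Finset.range ((n - 1) / 2 + 1), Polynomial.C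
      (-2 * A (n - 1 - 2 * j) / ((n - 1 - 2 * j).factorial : ℚ) * ((-1) ^ n / (-4) ^ j)) *
        Polynomial.X ^ j, ?_, ?_⟩
    · apply Polynomial.natDegree_sum_le_of_forall_le
      intro j hj
      rw [Finset.mem_range] at hj
      exact (Polynomial.natDegree_C_mul_X_pow_le _ _).trans (by omega)
    · rw [hq3, map_sum]
      apply Finset.sum_congr rfl
      intro j _
      rw [hsq, hm1, ← Complex.ofReal_div, Complex.ofReal_re]
      simp only [map_mul, Polynomial.aeval_C, Polynomial.aeval_X, map_pow]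
      have hpi : Real.pi ≠ 0 := Real.pi_ne_zero
      simp only [eq_ratCast]
      push_cast
      rw [mul_pow (-4 : ℝ), div_pow, one_pow]
      field_simp
  · intro j
    rw [pow_succ, hsq, hm1]
    have : ((((-1) ^ n : ℝ) : ℂ) / ((((-4 * Real.pi ^ 2) ^ j : ℝ) : ℂ) * (2 * Real.pi * Complex.I))) =
        (((-1) ^ n / (-4 * Real.pi ^ 2) ^ j / (2 * Real.pi) : ℝ) : ℂ) * (-Complex.I) := by
      have hpi : (Real.pi : ℂ) ≠ 0 := by exact_mod_cast Real.pi_ne_zero
      push_cast
      have hI' : Complex.I ≠ 0 := Complex.I_ne_zero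
      have h4 : ((-4 * (Real.pi : ℂ) ^ 2) ^ j) ≠ 0 := by
        apply pow_ne_zero
        simp [Real.pi_ne_zero]
      field_simp
      rw [Complex.I_sq]
      norm_num
    rw [this, Complex.re_ofReal_mul]
    simp

end Pool.Agent.Helper9.DISC
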